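import Mathlib

/-!
# Uniform path systems and two-point stabilizers

Let a group `Γ` of automorphisms act transitively on the vertices of the finite connected graph
`G`. If any two distinct vertices `x, y` are joined by a path at most one vertex of which is moved
by the automorphisms in `Γ` fixing `x` and `y`, then `G` has a uniform path system. This holds in
particular if `G` is vertex-transitive of diameter at most two.
-/

set_option autoImplicit false

namespace Pool.Agent.Results.MP_876e19_co.TwoPointStabilizers

open SimpleGraph Finset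

/-- `G` has a uniform path system. -/
def HasUniformPathSystem {V : Type} (G : SimpleGraph V) : Prop :=
  ∃ P : ∀ x y : V, G.Walk x y,
    (∀ x y : V, x ≠ y → (P x y).IsPath) ∧
    ∃ c : ℕ, ∀ v : V, {p : V × V | p.1 ≠ p.2 ∧ v ∈ (P p.1 p.2).support}.ncard = c

/-- Every two distinct vertices `x, y` are joined by a path all of whose vertices, except possibly
one vertex `m`, are fixed by every automorphism in `Γ` that fixes `x` and `y`. -/
def AlmostFixedPaths {V : Type} (G : SimpleGraph V) (Γ : Subgroup (G ≃g G)) : Prop :=
  ∀ x y : V, x ≠ y → ∃ w : G.Walk x y, w.IsPath ∧ ∃ m : V,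
    ∀ g ∈ Γ, g x = x → g y = y → ∀ v ∈ w.support, v ≠ m → g v = v

section hall

variable {V D : Type} [Fintype V] [DecidableEq V] [Fintype D]

/-- A balanced choice. -/
lemma balanced (s : ℕ) (t : D → Finset V) (hne : ∀ p, (t p).Nonempty)
    (hcard : Fintype.card D = Fintype.card V * s)
    (hW : ∀ u v : V, ∑ p : D, (if u ∈ t p then (1 : ℚ) / (t p).card else 0) =
      ∑ p : D, (if v ∈ t p then (1 : ℚ) / (t p).card else 0)) :
    ∃ f : D → V, (∀ p, f p ∈ t p) ∧ ∀ v, (univ.filter fun p => f p = v).card = s := by
  set W : V → ℚ := fun v => ∑ p : D, (if v ∈ t p then (1 : ℚ) / (t p).card else 0) with hWdef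
  have hrow : ∀ p : D, ∑ v : V, (if v ∈ t p then (1 : ℚ) / (t p).card else 0) = 1 := by
    intro p
    rw [← Finset.sum_filter]
    have : (univ.filter fun v => v ∈ t p) = t p := by ext v; simp
    rw [this, Finset.sum_const, nsmul_eq_mul]
    have h0 : ((t p).card : ℚ) ≠ 0 := by
      have := (hne p).card_pos
      positivity
    field_simp
  have htot : ∑ v : V, W v = Fintype.card D := by
    simp only [hWdef]
    rw [Finset.sum_comm]
    simp only [hrow]
    simp
  have hWs : ∀ v, W v = s := by
    intro v
    have h1 : ∑ u : V, W u = Fintype.card V * W v := by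
      rw [Finset.sum_congr rfl (fun u _ => hW u v), Finset.sum_const, Finset.card_univ,
        nsmul_eq_mul]
    rw [htot, hcard] at h1
    have h2 : (0 : ℚ) < Fintype.card V := by
      have : 0 < Fintype.card V := Fintype.card_pos_iff.mpr ⟨v⟩
      exact_mod_cast this
    push_cast at h1
    exact (mul_left_cancel₀ h2.ne' h1).symm
  -- Hall
  let T : D → Finset (V × Fin s) := fun p => t p ×ˢ univ
  have hall : ∀ S : Finset D, S.card ≤ (S.biUnion T).card := by
    intro S
    have hU : S.biUnion T = (S.biUnion t) ×ˢ (univ : Finset (Fin s)) := by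
      ext ⟨v, i⟩
      simp [T]
    rw [hU, Finset.card_product, Finset.card_univ, Fintype.card_fin]
    have h1 : (S.card : ℚ) ≤ (S.biUnion t).card * s := by
      calc (S.card : ℚ) = ∑ p ∈ S, (1 : ℚ) := by simp
        _ = ∑ p ∈ S, ∑ v : V, (if v ∈ t p then (1 : ℚ) / (t p).card else 0) :=
            Finset.sum_congr rfl fun p _ => (hrow p).symm
        _ = ∑ p ∈ S, ∑ v ∈ S.biUnion t, (if v ∈ t p then (1 : ℚ) / (t p).card else 0) := by
            refine Finset.sum_congr rfl fun p hp => ?_
            symm
            refine Finset.sum_subset (Finset.subset_univ _) fun v _ hv => ?_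
            rw [if_neg]
            intro hvt
            exact hv (Finset.mem_biUnion.mpr ⟨p, hp, hvt⟩)
        _ = ∑ v ∈ S.biUnion t, ∑ p ∈ S, (if v ∈ t p then (1 : ℚ) / (t p).card else 0) :=
            Finset.sum_comm
        _ ≤ ∑ v ∈ S.biUnion t, W v := by
            refine Finset.sum_le_sum fun v _ => ?_
            refine Finset.sum_le_sum_of_subset_of_nonneg (Finset.subset_univ _) fun p _ _ => ?_
            split_ifs <;> positivity
        _ = (S.biUnion t).card * s := by
            rw [Finset.sum_congr rfl (fun v _ => hWs v)]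
            simp
    exact_mod_cast h1
  obtain ⟨F, hFinj, hF⟩ := (Finset.all_card_le_biUnion_card_iff_exists_injective T).mp hall
  have hbij : Function.Bijective F := by
    rw [Fintype.bijective_iff_injective_and_card]
    refine ⟨hFinj, ?_⟩
    rw [hcard, Fintype.card_prod, Fintype.card_fin]
  refine ⟨fun p => (F p).1, fun p => ?_, fun v => ?_⟩
  · have := hF p
    simp only [T, Finset.mem_product] at this
    exact this.1
  · have : (univ.filter fun p => (F p).1 = v).card =
        (({v} : Finset V) ×ˢ (univ : Finset (Fin s))).card := by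
      refine Finset.card_bij (fun p _ => F p) ?_ ?_ ?_
      · intro p hp
        simp only [Finset.mem_filter, Finset.mem_univ, true_and] at hp
        rw [Finset.mem_product, Finset.mem_singleton]
        exact ⟨hp, Finset.mem_univ _⟩
      · intro a _ b _ h
        exact hFinj h
      · intro b hb
        obtain ⟨p, hp⟩ := hbij.2 b
        refine ⟨p, ?_, hp⟩
        simp only [Finset.mem_product, Finset.mem_singleton, Finset.mem_univ, and_true] at hb
        simp [hp, hb]
    rw [this]
    simp

end hall

/-- **Main theorem.** Let `G` be a finite connected graph and let `Γ` be a group of automorphisms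
acting transitively on the vertices. If every two distinct vertices `x, y` are joined by a path at
most one vertex of which is moved by the elements of `Γ` fixing `x` and `y`, then `G` has a uniform
path system. In particular every vertex-transitive graph of diameter at most two has one. -/
theorem result :
    (∀ (V : Type) [Finite V] (G : SimpleGraph V), G.Connected →
      ∀ Γ : Subgroup (G ≃g G), (∀ x y : V, ∃ g ∈ Γ, g x = y) → AlmostFixedPaths G Γ →
        HasUniformPathSystem G) ∧
    (∀ (V : Type) [Finite V] (G : SimpleGraph V), G.Connected →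
      (∀ x y : V, ∃ φ : G ≃g G, φ x = y) → (∀ x y : V, G.dist x y ≤ 2) →
        HasUniformPathSystem G) := by
  have main : ∀ (V : Type) [Finite V] (G : SimpleGraph V), G.Connected →
      ∀ Γ : Subgroup (G ≃g G), (∀ x y : V, ∃ g ∈ Γ, g x = y) → AlmostFixedPaths G Γ →
        HasUniformPathSystem G := by
    intro V _ G hconn Γ htr hap
    classical
    have : Fintype V := Fintype.ofFinite V
    -- the pairs
    let D : Type := {p : V × V // p.1 ≠ p.2}
    let act : (G ≃g G) → D → D := fun g p => ⟨(g p.1.1, g p.1.2), fun h => p.2 (g.injective h)⟩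
    have act_mul : ∀ g h p, act (g * h) p = act g (act h p) := fun g h p => rfl
    have act_one : ∀ p, act 1 p = p := fun p => rfl
    let st : Setoid D :=
      { r := fun p q => ∃ g ∈ Γ, act g p = q
        iseqv :=
          { refl := fun p => ⟨1, Γ.one_mem, rfl⟩
            symm := by
              rintro p q ⟨g, hg, rfl⟩
              refine ⟨g⁻¹, Γ.inv_mem hg, ?_⟩
              rw [← act_mul, inv_mul_cancel, act_one]
            trans := by
              rintro p q r ⟨g, hg, rfl⟩ ⟨h, hh, rfl⟩
              exact ⟨h * g, Γ.mul_mem hh hg, act_mul _ _ _⟩ } }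
    let rep : D → D := fun p => (Quotient.mk st p).out
    have hrep : ∀ p, ∃ g ∈ Γ, act g (rep p) = p := by
      intro p
      have h : st.r (Quotient.mk st p).out p :=
        Quotient.exact (s := st) (Quotient.out_eq (Quotient.mk st p))
      exact h
    have hrep_act : ∀ g ∈ Γ, ∀ p, rep (act g p) = rep p := by
      intro g hg p
      have : Quotient.mk st (act g p) = Quotient.mk st p :=
        (Quotient.sound (⟨g, hg, rfl⟩ : st.r p (act g p))).symm
      show (Quotient.mk st (act g p)).out = (Quotient.mk st p).out
      rw [this]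
    -- paths of the representatives
    have hw : ∀ r : D, ∃ w : G.Walk r.1.1 r.1.2, w.IsPath ∧ ∃ m : V, m ∈ w.support ∧
        ∀ g ∈ Γ, act g r = r → ∀ v ∈ w.support, v ≠ m → g v = v := by
      intro r
      obtain ⟨w, hwp, m, hm⟩ := hap r.1.1 r.1.2 r.2
      have hm' : ∀ g ∈ Γ, act g r = r → ∀ v ∈ w.support, v ≠ m → g v = v := by
        intro g hg hgr
        have h1 := congrArg (fun q : D => q.1) hgr
        exact hm g hg (congrArg Prod.fst h1) (congrArg Prod.snd h1)
      by_cases h : m ∈ w.support
      · exact ⟨w, hwp, m, h, hm'⟩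
      · refine ⟨w, hwp, r.1.1, w.start_mem_support, fun g hg hgr v hv _ => ?_⟩
        exact hm' g hg hgr v hv (fun e => h (e ▸ hv))
    choose w hwp mm hmm hfix using hw
    let S : D → List V := fun r => (w r).support
    -- the sets of fixed vertices and of candidates for the moved vertex
    let F : D → Set V := fun p => {v | ∃ g ∈ Γ, act g (rep p) = p ∧
      ∃ u ∈ S (rep p), u ≠ mm (rep p) ∧ g u = v}
    let t : D → Finset V := fun p => univ.filter fun v => ∃ g ∈ Γ, act g (rep p) = p ∧
      g (mm (rep p)) = v
    have hstab : ∀ p, ∀ g ∈ Γ, ∀ h ∈ Γ, act g (rep p) = p → act h (rep p) = p →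
        ∀ u ∈ (w (rep p)).support, u ≠ mm (rep p) → g u = h u := by
      intro p g hg h hh e1 e2 u hu hum
      have h1 : act (h⁻¹ * g) (rep p) = rep p := by
        rw [act_mul, e1]
        conv_lhs => rw [← e2]
        rw [← act_mul, inv_mul_cancel, act_one]
      have h2 := hfix (rep p) (h⁻¹ * g) (Γ.mul_mem (Γ.inv_mem hh) hg) h1 u hu hum
      have h3 : h ((h⁻¹ * g) u) = h u := by rw [h2]
      rw [← h3]
      show g u = (h * (h⁻¹ * g)) u
      rw [mul_inv_cancel_left]
    have hFact : ∀ g ∈ Γ, ∀ p v, g v ∈ F (act g p) ↔ v ∈ F p := by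
      intro g hg p v
      simp only [F, Set.mem_ofPred_eq, hrep_act g hg p]
      constructor
      · rintro ⟨h, hh, e1, u, hu, hum, e2⟩
        refine ⟨g⁻¹ * h, Γ.mul_mem (Γ.inv_mem hg) hh, ?_, u, hu, hum, ?_⟩
        · rw [act_mul, e1, ← act_mul, inv_mul_cancel, act_one]
        · show g⁻¹ (h u) = v
          rw [e2]
          show (g⁻¹ * g) v = v
          rw [inv_mul_cancel]; rfl
      · rintro ⟨h, hh, e1, u, hu, hum, e2⟩
        refine ⟨g * h, Γ.mul_mem hg hh, ?_, u, hu, hum, ?_⟩
        · rw [act_mul, e1]
        · show g (h u) = g v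
          rw [e2]
    have htact : ∀ g ∈ Γ, ∀ p v, g v ∈ t (act g p) ↔ v ∈ t p := by
      intro g hg p v
      simp only [t, Finset.mem_filter, Finset.mem_univ, true_and, hrep_act g hg p]
      constructor
      · rintro ⟨h, hh, e1, e2⟩
        refine ⟨g⁻¹ * h, Γ.mul_mem (Γ.inv_mem hg) hh, ?_, ?_⟩
        · rw [act_mul, e1, ← act_mul, inv_mul_cancel, act_one]
        · show g⁻¹ (h (mm (rep p))) = v
          rw [e2]
          show (g⁻¹ * g) v = v
          rw [inv_mul_cancel]; rfl
      · rintro ⟨h, hh, e1, e2⟩
        refine ⟨g * h, Γ.mul_mem hg hh, ?_, ?_⟩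
        · rw [act_mul, e1]
        · show g (h (mm (rep p))) = g v
          rw [e2]
    -- a group element as a permutation of the pairs
    let pe : (G ≃g G) → D ≃ D := fun g =>
      { toFun := act g
        invFun := act g⁻¹
        left_inv := fun p => by rw [← act_mul, inv_mul_cancel, act_one]
        right_inv := fun p => by rw [← act_mul, mul_inv_cancel, act_one] }
    have htcard : ∀ g ∈ Γ, ∀ p, (t (act g p)).card = (t p).card := by
      intro g hg p
      symm
      refine Finset.card_bij (fun v _ => g v) (fun v hv => (htact g hg p v).2 hv)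
        (fun a _ b _ h => g.injective h) (fun b hb => ?_)
      refine ⟨g⁻¹ b, ?_, ?_⟩
      · apply (htact g hg p _).1
        have : g (g⁻¹ b) = b := by
          show (g * g⁻¹) b = b
          rw [mul_inv_cancel]; rfl
        rw [this]; exact hb
      · show (g * g⁻¹) b = b
        rw [mul_inv_cancel]; rfl
    have hcardD : Fintype.card D = Fintype.card V * (Fintype.card V - 1) := by
      have h1 : Fintype.card D = (univ : Finset V).offDiag.card := by
        rw [Fintype.card_subtype]
        congr 1
        ext p
        simp [Finset.mem_offDiag]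
      rw [h1, Finset.offDiag_card, Finset.card_univ, Nat.mul_sub, mul_one]
    obtain ⟨f, hft, hfc⟩ := balanced (Fintype.card V - 1) t (fun p => by
        obtain ⟨g, hg, e⟩ := hrep p
        exact ⟨g (mm (rep p)), by simp only [t, Finset.mem_filter, Finset.mem_univ, true_and]; exact ⟨g, hg, e, rfl⟩⟩)
      hcardD (by
        intro u v
        obtain ⟨g, hg, e⟩ := htr u v
        refine Fintype.sum_equiv (pe g) _ _ fun p => ?_
        show (if u ∈ t p then (1 : ℚ) / (t p).card else 0) =
          (if v ∈ t (act g p) then (1 : ℚ) / (t (act g p)).card else 0)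
        rw [htcard g hg p, ← e]
        by_cases h : u ∈ t p
        · rw [if_pos h, if_pos ((htact g hg p u).2 h)]
        · rw [if_neg h, if_neg (fun h' => h ((htact g hg p u).1 h'))])
    -- the paths
    have hP : ∀ p : D, ∃ P : G.Walk p.1.1 p.1.2, P.IsPath ∧ (∀ v, v ∈ P.support ↔ v = f p ∨ v ∈ F p) ∧
        f p ∉ F p := by
      intro p
      have h1 := hft p
      simp only [t, Finset.mem_filter, Finset.mem_univ, true_and] at h1
      obtain ⟨g, hg, e1, e2⟩ := h1
      have hmem : ∀ v, v ∈ F p ↔ ∃ u ∈ (w (rep p)).support, u ≠ mm (rep p) ∧ g u = v := by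
        intro v
        constructor
        · rintro ⟨h, hh, e3, u, hu, hum, e4⟩
          exact ⟨u, hu, hum, by rw [hstab p g hg h hh e1 e3 u hu hum, e4]⟩
        · rintro ⟨u, hu, hum, e4⟩
          exact ⟨g, hg, e1, u, hu, hum, e4⟩
      have ea : g (rep p).1.1 = p.1.1 := congrArg (fun q : D => q.1.1) e1
      have eb : g (rep p).1.2 = p.1.2 := congrArg (fun q : D => q.1.2) e1
      refine ⟨((w (rep p)).map g.toHom).copy ea eb, ?_, ?_, ?_⟩
      · rw [Walk.isPath_copy]
        exact (hwp _).map g.injective
      · intro v
        rw [Walk.support_copy, Walk.support_map, List.mem_map, hmem]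
        constructor
        · rintro ⟨u, hu, e3⟩
          by_cases hum : u = mm (rep p)
          · left
            rw [← e2, ← e3, hum]; rfl
          · exact Or.inr ⟨u, hu, hum, e3⟩
        · rintro (e3 | ⟨u, hu, _, e3⟩)
          · exact ⟨mm (rep p), hmm _, by rw [e3, ← e2]; rfl⟩
          · exact ⟨u, hu, e3⟩
      · rw [hmem]
        rintro ⟨u, _, hum, e3⟩
        exact hum (g.injective (by rw [e3, e2]))
    choose P hPp hPs hPf using hP
    refine ⟨fun x y => if h : x ≠ y then P ⟨(x, y), h⟩ else (hconn.preconnected x y).some, ?_,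
      (Fintype.card V - 1) + (Fintype.card V) * 0 +
        (if h : Nonempty V then {p : D | h.some ∈ F p}.ncard else 0), ?_⟩
    · intro x y h
      simp only [dif_pos h]
      exact hPp ⟨(x, y), h⟩
    · intro v
      have hV : Nonempty V := ⟨v⟩
      rw [dif_pos hV, mul_zero, add_zero]
      -- pass to the subtype
      have h1 : {p : V × V | p.1 ≠ p.2 ∧ v ∈ ((if h : p.1 ≠ p.2 then P ⟨(p.1, p.2), h⟩ else
          (hconn.preconnected p.1 p.2).some : G.Walk p.1 p.2)).support} =
          Subtype.val '' ({p : D | f p = v} ∪ {p : D | v ∈ F p}) := by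
        ext p
        constructor
        · rintro ⟨hne, hv⟩
          rw [dif_pos hne] at hv
          refine ⟨⟨p, hne⟩, ?_, rfl⟩
          rcases (hPs ⟨p, hne⟩ v).1 hv with h | h
          · exact Or.inl h.symm
          · exact Or.inr h
        · rintro ⟨q, hq, rfl⟩
          refine ⟨q.2, ?_⟩
          rw [dif_pos q.2]
          apply (hPs q v).2
          rcases hq with h | h
          · exact Or.inl h.symm
          · exact Or.inr h
      rw [h1, Set.ncard_image_of_injective _ Subtype.val_injective, Set.ncard_union_eq ?_
        (Set.toFinite _) (Set.toFinite _)]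
      · congr 1
        · have := hfc v
          rw [← this, Set.ncard_eq_toFinset_card']
          congr 1
          ext p
          simp only [Finset.mem_filter, Finset.mem_univ, true_and, Set.mem_toFinset]
          exact Iff.rfl
        · obtain ⟨g, hg, e⟩ := htr v hV.some
          refine Set.ncard_congr (fun p _ => act g p) ?_ ?_ ?_
          · intro p hp
            show hV.some ∈ F (act g p)
            rw [← e]
            exact (hFact g hg p v).2 hp
          · intro p q _ _ h
            exact (pe g).injective h
          · intro q hq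
            refine ⟨act g⁻¹ q, ?_, ?_⟩
            · show v ∈ F (act g⁻¹ q)
              apply (hFact g hg _ v).1
              rw [← act_mul, mul_inv_cancel, act_one, e]
              exact hq
            · rw [← act_mul, mul_inv_cancel, act_one]
      · rw [Set.disjoint_left]
        intro p hp1 hp2
        apply hPf p
        rw [show f p = v from hp1]
        exact hp2
  refine ⟨main, ?_⟩
  intro V _ G hconn htr hd
  refine main V G hconn ⊤ (fun x y => ?_) ?_
  · obtain ⟨φ, hφ⟩ := htr x y
    exact ⟨φ, Subgroup.mem_top _, hφ⟩
  · intro x y hne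
    obtain ⟨w, hwp, hwl⟩ := hconn.exists_path_of_dist x y
    have hlen : w.length ≤ 2 := by rw [hwl]; exact hd x y
    refine ⟨w, hwp, w.getVert 1, ?_⟩
    intro g _ hgx hgy v hv hvne
    rw [Walk.mem_support_iff_exists_getVert] at hv
    obtain ⟨i, rfl, hi⟩ := hv
    have hi' : i = 0 ∨ i = 1 ∨ i = 2 := by omega
    rcases hi' with rfl | rfl | rfl
    · rw [Walk.getVert_zero]; exact hgx
    · exact absurd rfl hvne
    · have : w.length = 2 := by omega
      rw [← this, Walk.getVert_length]; exact hgy

end Pool.Agent.Results.MP_876e19_co.TwoPointStabilizers
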